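import Pool.Agent.R566.Delay.Alg

/-!
# Randomised matching with convex delay on uniform metrics: no finite ratio

For the delay function `f t = t * exp (t ^ 2 - 1 / t)`, which is in the class of the problem, no
randomised online algorithm has a finite competitive ratio on the uniform metric with `n ≥ 2`
points.
-/

set_option autoImplicit false

namespace Pool.Agent.Results.MP_ce7f0c_lc.NoFiniteRatio

open Pool.Agent.R566.Delay

/-- **Q1 has a negative answer.**  (1) There is a delay function `f` in the class such that for
every distance `D > 0`, every `n ≥ 2` and every `c` no randomised online algorithm is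
`c`-competitive on the `n`-point uniform metric.  (2) In particular there is no `C` such that there
are `C log n`-competitive randomised online algorithms for this `f`. -/
theorem result :
    (∃ f : ℝ → ℝ, DelayFunction f ∧ ∀ D : ℝ, 0 < D → ∀ n : ℕ, 2 ≤ n →
      ∀ (A : Randomized n) (c : ℝ), ¬ A.Competitive f D c) ∧
    ¬ (∀ f : ℝ → ℝ, DelayFunction f → ∀ D : ℝ, 0 < D → ∃ C : ℝ, ∀ n : ℕ, 2 ≤ n →
      ∃ A : Randomized n, A.Competitive f D (C * Real.log n)) := by
  have h1 : ∀ D : ℝ, 0 < D → ∀ n : ℕ, 2 ≤ n →
      ∀ (A : Randomized n) (c : ℝ), ¬ A.Competitive f0 D c := by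
    intro D hD n hn A c
    have hab : (⟨0, by omega⟩ : Fin n) ≠ ⟨1, by omega⟩ := by
      intro h
      have := congrArg Fin.val h
      simp at this
    exact no_competitive hD hab A c
  refine ⟨⟨f0, f0_delay, h1⟩, fun h => ?_⟩
  obtain ⟨C, hC⟩ := h f0 f0_delay 1 one_pos
  obtain ⟨A, hA⟩ := hC 2 (le_refl _)
  exact h1 1 one_pos 2 (le_refl _) A _ hA

end Pool.Agent.Results.MP_ce7f0c_lc.NoFiniteRatio
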